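import Pool.Agent.TH280.DH.Stm

set_option autoImplicit false

/-! The Poisson integral as a harmonic majorant. -/

namespace Pool.Agent.TH440.DH

open Complex Polynomial Filter Topology InnerProductSpace Metric
open Pool.Agent.TH280.DH (E2 cz av S_MAJ)

noncomputable section

/-- the isometry between the plane and the complex numbers -/
def Liso : E2 ≃ₗᵢ[ℝ] ℂ := Complex.orthonormalBasisOneI.repr.symm

theorem Liso_apply (x : E2) : Liso x = cz x := by
  unfold Liso cz
  rw [← OrthonormalBasis.sum_repr_symm]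
  simp [Fin.sum_univ_two, Complex.coe_orthonormalBasisOneI]

theorem lap_comp (f : ℂ → ℝ) (x : E2) :
    Laplacian.laplacian (f ∘ Liso) x = Laplacian.laplacian f (Liso x) := by
  have h1 := laplacian_eq_iteratedFDeriv_orthonormalBasis (f ∘ Liso) (stdOrthonormalBasis ℝ E2)
  have h2 := laplacian_eq_iteratedFDeriv_orthonormalBasis f ((stdOrthonormalBasis ℝ E2).map Liso)
  rw [h1, h2]
  refine Finset.sum_congr rfl fun i _ => ?_
  have h4 : iteratedFDeriv ℝ 2 (f ∘ Liso) x =
      (iteratedFDeriv ℝ 2 f (Liso x)).compContinuousLinearMap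
        (fun _ => (Liso.toContinuousLinearEquiv : E2 →L[ℝ] ℂ)) := by
    rw [← iteratedFDerivWithin_univ, ← iteratedFDerivWithin_univ]
    exact Liso.toContinuousLinearEquiv.iteratedFDerivWithin_comp_right f uniqueDiffOn_univ
      (Set.mem_univ (Liso x)) 2
  rw [h4, ContinuousMultilinearMap.compContinuousLinearMap_apply]
  congr 1
  funext j
  fin_cases j <;> simp

theorem harm_comp {f : ℂ → ℝ} {x : E2} (h : HarmonicAt f (Liso x)) :
    HarmonicAt (fun y => f (cz y)) x := by
  have e : (fun y => f (cz y)) = f ∘ Liso := by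
    funext y
    rw [Function.comp_apply, Liso_apply]
  rw [e]
  refine ⟨?_, ?_⟩
  · exact ContDiffAt.comp x h.1 Liso.contDiff.contDiffAt
  · have h1 : ∀ᶠ y in 𝓝 x, Laplacian.laplacian f (Liso y) = 0 := by
      have := Liso.continuous.continuousAt (x := x)
      exact this.eventually h.2
    filter_upwards [h1] with y hy
    rw [lap_comp, hy]
    rfl

theorem bern {p U V : ℝ} (hp : 1 < p) (hU : 0 < U) (hV : 0 ≤ V) :
    U ^ p + p * U ^ (p - 1) * (V - U) ≤ V ^ p := by
  have h1 := one_add_mul_self_le_rpow_one_add (s := V / U - 1) (by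
    have : 0 ≤ V / U := div_nonneg hV hU.le
    linarith) hp.le
  have e1 : 1 + (V / U - 1) = V / U := by ring
  rw [e1, Real.div_rpow hV hU.le] at h1
  have hUp : 0 < U ^ p := Real.rpow_pos_of_pos hU p
  rw [le_div_iff₀ hUp] at h1
  have e2 : U ^ p = U ^ (p - 1) * U := by
    rw [← Real.rpow_add_one hU.ne']
    congr 1
    ring
  have e3 : (1 + p * (V / U - 1)) * U ^ p = U ^ p + p * U ^ (p - 1) * (V - U) := by
    rw [e2]
    field_simp
  rw [e3] at h1
  exact h1

theorem subgrad {ι : Type} [Fintype ι] {p : ℝ} (hp : 1 < p) (u : ι → ℝ) :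
    ∃ ξ : ι → ℝ, ∀ v : ι → ℝ, (Real.sqrt (∑ i, u i ^ 2)) ^ p + ∑ i, ξ i * (v i - u i) ≤
      (Real.sqrt (∑ i, v i ^ 2)) ^ p := by
  set U := Real.sqrt (∑ i, u i ^ 2) with hU
  have hU0 : 0 ≤ U := Real.sqrt_nonneg _
  have hUsq : U ^ 2 = ∑ i, u i ^ 2 := Real.sq_sqrt (Finset.sum_nonneg fun _ _ => sq_nonneg _)
  rcases hU0.eq_or_lt with h0 | h0
  · refine ⟨fun _ => 0, fun v => ?_⟩
    rw [← h0, Real.zero_rpow (by linarith)]
    simp only [zero_mul, Finset.sum_const_zero, add_zero]
    exact Real.rpow_nonneg (Real.sqrt_nonneg _) _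
  · refine ⟨fun i => p * U ^ (p - 2) * u i, fun v => ?_⟩
    set V := Real.sqrt (∑ i, v i ^ 2) with hV
    have hV0 : 0 ≤ V := Real.sqrt_nonneg _
    have hcs : ∑ i, u i * v i ≤ U * V := by
      rw [hU, hV]
      exact Real.sum_mul_le_sqrt_mul_sqrt _ _ _
    have e1 : ∑ i, p * U ^ (p - 2) * u i * (v i - u i) =
        p * U ^ (p - 2) * (∑ i, u i * v i - U ^ 2) := by
      rw [hUsq, ← Finset.sum_sub_distrib, Finset.mul_sum]
      refine Finset.sum_congr rfl fun i _ => ?_
      ring
    rw [e1]
    have e2 : U ^ (p - 1) = U ^ (p - 2) * U := by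
      rw [← Real.rpow_add_one h0.ne']
      congr 1
      ring
    have hpos : 0 ≤ p * U ^ (p - 2) := mul_nonneg (by linarith) (Real.rpow_nonneg hU0 _)
    have h1 := bern hp h0 hV0
    have h2 : p * U ^ (p - 2) * (∑ i, u i * v i - U ^ 2) ≤ p * U ^ (p - 2) * (U * V - U ^ 2) :=
      mul_le_mul_of_nonneg_left (by linarith) hpos
    have h3 : p * U ^ (p - 2) * (U * V - U ^ 2) = p * U ^ (p - 1) * (V - U) := by
      rw [e2]; ring
    linarith

theorem main : S_MAJ := by
  intro ι _ P p hp
  set Φ : ℂ → ℝ := fun z => (Real.sqrt (∑ i, ((P i).eval z).re ^ 2)) ^ p with hΦ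
  have hΦc : Continuous Φ := by
    have h1 : Continuous fun z => Real.sqrt (∑ i, ((P i).eval z).re ^ 2) := by
      refine Real.continuous_sqrt.comp (continuous_finsetSum _ fun i _ => ?_)
      exact (Complex.continuous_re.comp (P i).continuous).pow 2
    exact h1.rpow_const fun z => Or.inr (by linarith)
  have hΦi : CircleIntegrable Φ 0 1 := hΦc.continuousOn.circleIntegrable'
  have hΦi' : CircleIntegrable (fun z => (Φ z : ℂ)) 0 1 :=
    (Complex.continuous_ofReal.comp hΦc).continuousOn.circleIntegrable'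
  set A : ℂ → ℂ := fun w => Real.circleAverage (fun ζ => herglotzRieszKernel 0 w ζ • (Φ ζ : ℂ)) 0 1
    with hA
  have hAn : AnalyticOnNhd ℂ A (ball 0 1) :=
    analyticOnNhd_circleAverage_herglotzRieszKernel_smul hΦi'
  have hball : ∀ x : E2, x ∈ ball (0 : E2) 1 → cz x ∈ ball (0 : ℂ) 1 := by
    intro x hx
    rw [mem_ball_zero_iff] at hx ⊢
    rw [← Liso_apply, LinearIsometryEquiv.norm_map]
    exact hx
  have hre : ∀ w ∈ ball (0 : ℂ) 1, (A w).re =
      Real.circleAverage ((Complex.re ∘ herglotzRieszKernel 0 w) • Φ) 0 1 := fun w hw =>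
    re_circleAverage_herglotzRieszKernel_smul hΦi hw
  refine ⟨fun x => (A (cz x)).re, ?_, ?_, ?_⟩
  · intro x hx
    have h1 : HarmonicAt (fun w => (A w).re) (Liso x) := by
      rw [Liso_apply]
      exact (hAn _ (hball x hx)).harmonicAt_re
    exact harm_comp h1
  · intro x hx
    have hw := hball x hx
    show _ ≤ (A (cz x)).re
    rw [hre _ hw]
    set w := cz x with hwd
    obtain ⟨ξ, hξ⟩ := subgrad hp (fun i => ((P i).eval w).re)
    set u : ℝ := (Real.sqrt (∑ i, ((P i).eval w).re ^ 2)) ^ p with hu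
    set H : ℂ → ℝ := fun z => u + ∑ i, ξ i * (((P i).eval z).re - ((P i).eval w).re) with hH
    have hHan : ∀ z : ℂ, HarmonicAt H z := by
      intro z
      set R : ℂ[X] := C (u : ℂ) + ∑ i, C (ξ i : ℂ) * (P i - C ((P i).eval w)) with hR
      have e : H = fun z => (R.eval z).re := by
        funext z
        rw [hH, hR]
        simp only [eval_add, eval_C, eval_finsetSum, eval_mul, eval_sub, Complex.add_re,
          Complex.ofReal_re, Complex.re_sum, Complex.re_ofReal_mul, Complex.sub_re]
      rw [e]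
      exact (R.differentiable.analyticAt z).harmonicAt_re
    have hHc : Continuous H := by
      refine continuous_const.add (continuous_finsetSum _ fun i _ => ?_)
      exact continuous_const.mul ((Complex.continuous_re.comp (P i).continuous).sub
        continuous_const)
    have h1 : Real.circleAverage ((Complex.re ∘ herglotzRieszKernel 0 w) • H) 0 1 = H w :=
      HarmonicOnNhd.circleAverage_re_herglotzRieszKernel_smul (fun z _ => hHan z) hw
    have h2 : H w = u := by
      rw [hH]
      simp
    rw [← h2, ← h1]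
    have hKc : ContinuousOn (Complex.re ∘ herglotzRieszKernel 0 w) (sphere (0:ℂ) |1|) :=
      Complex.continuous_re.comp_continuousOn (continuousOn_herglotzRieszKernel_sphere hw)
    refine Real.circleAverage_mono ?_ ?_ ?_
    · exact (hKc.smul hHc.continuousOn).circleIntegrable'
    · exact (hKc.smul hΦc.continuousOn).circleIntegrable'
    · intro z hz
      rw [abs_one] at hz
      have hK : 0 ≤ (Complex.re ∘ herglotzRieszKernel 0 w) z := by
        have h3 := le_re_herglotzRieszKernel hz hw
        refine le_trans ?_ h3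
        rw [mem_ball_iff_norm] at hw
        exact div_nonneg (by linarith) (by positivity)
      show (Complex.re ∘ herglotzRieszKernel 0 w) z * H z ≤
        (Complex.re ∘ herglotzRieszKernel 0 w) z * Φ z
      exact mul_le_mul_of_nonneg_left (hξ fun i => ((P i).eval z).re) hK
  · have h0 : cz (0 : E2) = 0 := by
      rw [← Liso_apply, map_zero]
    show (A (cz 0)).re ≤ _
    rw [h0, hre 0 (mem_ball_self one_pos)]
    refine le_of_eq ?_
    refine Real.circleAverage_congr_sphere ?_
    intro z hz
    have hz0 : z ≠ 0 := by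
      rintro rfl
      simp at hz
    show (herglotzRieszKernel 0 0 z).re * Φ z = Φ z
    rw [herglotzRieszKernel_def]
    simp [hz0]

end

end Pool.Agent.TH440.DH
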